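import Pool.Agent.U41.OD.Stm2
import Pool.Agent.TH214.RM.Base

/-! Project OD, package PS: the local conditions are open. -/

set_option autoImplicit false

namespace Pool.Agent.U41.OD

open Pool.Agent.H918R2.Quad Pool.Agent.TH214.RM MvPolynomial

namespace PS

/-- The regular form of the condition in one chart. -/
theorem reg_chart {O τ : Type} [CommRing O] {Q : Ideal (MvPolynomial τ O)} (hQ : Q.IsPrime)
    {g : MvPolynomial τ O} (hG : g ∈ Q)
    (h : (∃ j, pderiv j g ∉ Q) ∨ ∀ h, h ∉ Q → h * g ∉ Q ^ 2) : ∀ h, h ∉ Q → h * g ∉ Q ^ 2 := by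
  intro f hf hfG
  rcases h with ⟨j, hj⟩ | h1
  · have h2 : ∀ y ∈ Q ^ 2, pderiv j y ∈ Q := by
      intro y hy
      rw [pow_two] at hy
      refine Submodule.mul_induction_on hy ?_ ?_
      · intro a ha b hb
        rw [Derivation.leibniz, smul_eq_mul, smul_eq_mul]
        exact Q.add_mem (Q.mul_mem_right _ ha) (Q.mul_mem_right _ hb)
      · intro a b ha hb
        rw [map_add]
        exact Q.add_mem ha hb
    have h3 := h2 _ hfG
    rw [Derivation.leibniz, smul_eq_mul, smul_eq_mul] at h3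
    have h4 := Q.sub_mem h3 (Q.mul_mem_right (pderiv j f) hG)
    rw [add_sub_cancel_right] at h4
    exact (hQ.mem_or_mem h4).elim hf hj
  · exact h1 f hf hfG

theorem deh_mem {O ι : Type} [CommRing O] [DecidableEq ι] (s : ι) (I : Ideal O)
    (D : MvPolynomial ι O) (hD : ∀ m, coeff m D ∈ I) : ∀ m, coeff m (deh s D) ∈ I := by
  rw [← MvPolynomial.mem_map_C_iff] at hD ⊢
  have h1 : ((I.map (C : O →+* MvPolynomial ι O)).map
      ((aeval (tau s) : MvPolynomial ι O →ₐ[O] MvPolynomial {j : ι // j ≠ s} O) :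
        MvPolynomial ι O →+* MvPolynomial {j : ι // j ≠ s} O)) = I.map C := by
    rw [Ideal.map_map]
    congr 1
    ext r
    simp
  rw [← h1]
  exact Ideal.mem_map_of_mem _ hD

theorem map_C_le {O τ : Type} [CommRing O] (𝔭 : Ideal O) (Q : Ideal (MvPolynomial τ O))
    (hC : ∀ r : O, C r ∈ Q ↔ r ∈ 𝔭) (r : ℕ) (D : MvPolynomial τ O)
    (hD : ∀ m, coeff m D ∈ 𝔭 ^ r) : D ∈ Q ^ r := by
  rw [← MvPolynomial.mem_map_C_iff, Ideal.map_pow] at hD
  refine Ideal.pow_right_mono ?_ r hD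
  rw [Ideal.map_le_iff_le_comap]
  intro z hz
  exact (hC z).2 hz

theorem deh_sub {O ι : Type} [CommRing O] [DecidableEq ι] (s : ι) (P Q : MvPolynomial ι O) :
    deh s (P - Q) = deh s P - deh s Q := map_sub _ _ _

/-- Openness in one chart. -/
theorem reg_open {O ι : Type} [CommRing O] [DecidableEq ι] (𝔭 : Ideal O)
    (H H' : MvPolynomial ι O) (hD : ∀ m, coeff m (H' - H) ∈ 𝔭 ^ 2) (s : ι)
    (hreg : ∀ Q : Ideal (MvPolynomial {j : ι // j ≠ s} O), Q.IsPrime →
      (∀ r : O, C r ∈ Q ↔ r ∈ 𝔭) → deh s H ∈ Q → (∃ j, pderiv j (deh s H) ∉ Q) ∨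
        ∀ h, h ∉ Q → h * deh s H ∉ Q ^ 2) :
    ∀ Q : Ideal (MvPolynomial {j : ι // j ≠ s} O), Q.IsPrime →
      (∀ r : O, C r ∈ Q ↔ r ∈ 𝔭) → deh s H' ∈ Q → (∃ j, pderiv j (deh s H') ∉ Q) ∨
        ∀ h, h ∉ Q → h * deh s H' ∉ Q ^ 2 := by
  intro Q hQ hC hH'
  right
  have hd : deh s (H' - H) ∈ Q ^ 2 := map_C_le 𝔭 Q hC 2 _ (deh_mem s _ _ hD)
  have e : deh s H = deh s H' - deh s (H' - H) := by
    rw [deh_sub]
    ring
  have hd' : deh s (H' - H) ∈ Q := Ideal.pow_le_self (by norm_num) hd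
  have hH : deh s H ∈ Q := by
    rw [e]
    exact Q.sub_mem hH' hd'
  have h1 := reg_chart hQ hH (hreg Q hQ hC hH)
  intro h hh hcon
  refine h1 h hh ?_
  rw [e, mul_sub]
  exact (Q ^ 2).sub_mem hcon ((Q ^ 2).mul_mem_left _ hd)

theorem pow_mono_coeff {O τ : Type} [CommRing O] (𝔭 : Ideal O) {a b : ℕ} (hab : a ≤ b)
    {D : MvPolynomial τ O} (hD : ∀ m, coeff m D ∈ 𝔭 ^ b) : ∀ m, coeff m D ∈ 𝔭 ^ a :=
  fun m => Ideal.pow_le_pow_right hab (hD m)

theorem coeff_mul_single {O σ : Type} [CommRing O] [DecidableEq σ] (q g : MvPolynomial σ O)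
    (hg : coeff 0 g = 0) (m : σ) :
    coeff (Finsupp.single m 1) (q * g) = coeff 0 q * coeff (Finsupp.single m 1) g := by
  classical
  rw [coeff_mul, Finsupp.antidiagonal_single, Finset.sum_map]
  simp [Finset.Nat.antidiagonal_succ, hg]

theorem eq_single {σ : Type} [Fintype σ] (d : σ →₀ ℕ) (hd : d.degree = 1) :
    ∃ m, d = Finsupp.single m 1 := by
  classical
  have h0 : d ≠ 0 := by
    rintro rfl
    simp at hd
  obtain ⟨m, hm⟩ := Finsupp.ne_iff.1 h0
  refine ⟨m, ?_⟩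
  have hle : Finsupp.single m 1 ≤ d := by
    rw [Finsupp.single_le_iff]
    exact Nat.one_le_iff_ne_zero.2 hm
  obtain ⟨e, rfl⟩ := exists_add_of_le hle
  rw [map_add, Finsupp.degree_single] at hd
  have he : e.degree = 0 := by omega
  rw [Finsupp.degree_eq_zero_iff] at he
  rw [he, add_zero]

theorem hom_one {O σ : Type} [CommRing O] [Fintype σ] [DecidableEq σ] (f : MvPolynomial σ O)
    (hf : f.IsHomogeneous 1) : f = ∑ m, C (coeff (Finsupp.single m 1) f) * X m := by
  ext d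
  rw [coeff_sum]
  simp only [coeff_C_mul, coeff_X']
  by_cases hd : d.degree = 1
  · obtain ⟨m, rfl⟩ := eq_single d hd
    rw [Finset.sum_eq_single m]
    · simp
    · intro b _ hb
      rw [if_neg, mul_zero]
      intro h
      exact hb (Finsupp.single_left_injective one_ne_zero h)
    · intro h
      exact absurd (Finset.mem_univ m) h
  · rw [hf.coeff_eq_zero hd]
    symm
    refine Finset.sum_eq_zero fun m _ => ?_
    rw [if_neg, mul_zero]
    rintro rfl
    exact hd (by simp)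

theorem pderiv_mem {O σ : Type} [CommRing O] (I : Ideal O) (D : MvPolynomial σ O)
    (hD : ∀ m, coeff m D ∈ I) (j : σ) : ∀ m, coeff m (pderiv j D) ∈ I := by
  classical
  intro m
  have e : pderiv j D = ∑ v ∈ D.support, pderiv j (monomial v (coeff v D)) := by
    rw [← map_sum, ← D.as_sum]
  rw [e, coeff_sum]
  refine I.sum_mem fun v _ => ?_
  rw [pderiv_monomial, coeff_monomial]
  split_ifs
  · exact I.mul_mem_right _ (hD v)
  · exact I.zero_mem

theorem quad_open {O σ : Type} [CommRing O] [Fintype σ] [DecidableEq σ] (𝔭 : Ideal O)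
    (hp : 𝔭.IsPrime) (P P' : MvPolynomial σ O) (hP : P.IsHomogeneous 2) (hP' : P'.IsHomogeneous 2)
    (hD : ∀ m, coeff m (P' - P) ∈ 𝔭)
    (hq : ∀ l, ∃ δ : O, δ ∉ 𝔭 ∧ C δ * X l ∈ Ideal.span (Set.range fun j => pderiv j P)) :
    ∀ l, ∃ δ : O, δ ∉ 𝔭 ∧ C δ * X l ∈ Ideal.span (Set.range fun j => pderiv j P') := by
  have h1 : ∀ j, (pderiv j P).IsHomogeneous 1 := fun j => hP.pderiv
  have h1' : ∀ j, (pderiv j P').IsHomogeneous 1 := fun j => hP'.pderiv
  choose δ hδ hmem using hq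
  have hex : ∀ l, ∃ q : σ → MvPolynomial σ O, ∑ j, q j * pderiv j P = C (δ l) * X l :=
    fun l => Ideal.mem_span_range_iff_exists_fun.1 (hmem l)
  choose q hqe using hex
  let B : Matrix σ σ O := Matrix.of fun j m => coeff (Finsupp.single m 1) (pderiv j P)
  let B' : Matrix σ σ O := Matrix.of fun j m => coeff (Finsupp.single m 1) (pderiv j P')
  let A : Matrix σ σ O := Matrix.of fun l j => coeff 0 (q l j)
  have hAB : Matrix.diagonal δ = A * B := by
    ext l m
    have h2 := congrArg (coeff (Finsupp.single m 1)) (hqe l)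
    rw [coeff_sum, coeff_C_mul, coeff_X'] at h2
    rw [Matrix.mul_apply]
    have h3 : ∀ j, coeff (Finsupp.single m 1) (q l j * pderiv j P) = A l j * B j m := by
      intro j
      rw [coeff_mul_single _ _ ((h1 j).coeff_eq_zero (by simp))]
      rfl
    simp only [h3] at h2
    rw [h2, Matrix.diagonal_apply]
    by_cases hlm : l = m
    · subst hlm
      simp
    · rw [if_neg hlm, if_neg, mul_zero]
      intro h
      exact hlm (Finsupp.single_left_injective one_ne_zero h)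
  have hdetB : B.det ∉ 𝔭 := by
    intro h
    have h2 := congrArg Matrix.det hAB
    rw [Matrix.det_diagonal, Matrix.det_mul] at h2
    have h3 : ∏ l, δ l ∈ 𝔭 := by
      rw [h2]
      exact 𝔭.mul_mem_left _ h
    obtain ⟨l, -, hl⟩ := (hp.prod_mem_iff).1 h3
    exact hδ l hl
  have hBB' : (Ideal.Quotient.mk 𝔭).mapMatrix B' = (Ideal.Quotient.mk 𝔭).mapMatrix B := by
    ext j m
    simp only [RingHom.mapMatrix_apply, Matrix.map_apply]
    rw [Ideal.Quotient.eq]
    have h2 := pderiv_mem 𝔭 _ hD j (Finsupp.single m 1)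
    rw [map_sub, coeff_sub] at h2
    exact h2
  have hdetB' : B'.det ∉ 𝔭 := by
    intro h
    apply hdetB
    rw [← Ideal.Quotient.eq_zero_iff_mem] at h ⊢
    rw [RingHom.map_det] at h ⊢
    rw [← hBB']
    exact h
  intro l
  refine ⟨B'.det, hdetB', ?_⟩
  rw [Ideal.mem_span_range_iff_exists_fun]
  refine ⟨fun j => C (B'.adjugate l j), ?_⟩
  have h2 : ∀ j, pderiv j P' = ∑ m, C (B' j m) * X m := fun j => hom_one _ (h1' j)
  calc ∑ j, C (B'.adjugate l j) * pderiv j P'
      = ∑ j, ∑ m, C (B'.adjugate l j * B' j m) * X m := by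
        refine Finset.sum_congr rfl fun j _ => ?_
        rw [h2 j, Finset.mul_sum]
        refine Finset.sum_congr rfl fun m _ => ?_
        rw [C_mul]
        ring
    _ = ∑ m, C ((B'.adjugate * B') l m) * X m := by
        rw [Finset.sum_comm]
        refine Finset.sum_congr rfl fun m _ => ?_
        rw [Matrix.mul_apply, map_sum, Finset.sum_mul]
    _ = C B'.det * X l := by
        rw [Matrix.adjugate_mul]
        rw [Finset.sum_eq_single l]
        · simp
        · intro m _ hm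
          rw [Matrix.smul_apply, Matrix.one_apply_ne (Ne.symm hm), smul_zero, map_zero, zero_mul]
        · intro h
          exact absurd (Finset.mem_univ l) h

theorem node_open {O : Type} [CommRing O] {n : ℕ} (H : MvPolynomial (Fin (n + 2)) O) (𝔭 : Ideal O)
    (hp : 𝔭.IsPrime) (hN : Node 𝔭 H) : ∃ r : ℕ, ∀ H' : MvPolynomial (Fin (n + 2)) O,
    (∀ m, coeff m (H' - H) ∈ 𝔭 ^ r) → Node 𝔭 H' := by
  obtain ⟨htwo, ⟨k, hk, hc1, hc2, hl⟩, hquad, hoff⟩ := hN
  refine ⟨k + 1, fun H' hD => ⟨htwo, ⟨k, hk, ?_, ?_, ?_⟩, ?_, ?_⟩⟩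
  · have h1 := deh_mem (0 : Fin (n + 2)) _ _ hD 0
    rw [deh_sub, coeff_sub] at h1
    have h2 := (𝔭 ^ k).add_mem (Ideal.pow_le_pow_right (Nat.le_succ k) h1) hc1
    rw [constantCoeff_eq, sub_add_cancel] at h2
    exact h2
  · intro hcon
    have h1 := deh_mem (0 : Fin (n + 2)) _ _ hD 0
    rw [deh_sub, coeff_sub] at h1
    have h2 := (𝔭 ^ (k + 1)).sub_mem hcon h1
    rw [constantCoeff_eq, sub_sub_cancel] at h2
    exact hc2 h2
  · intro l
    have h1 := deh_mem (0 : Fin (n + 2)) _ _ hD (Finsupp.single l 1)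
    rw [deh_sub, coeff_sub] at h1
    have h2 := (𝔭 ^ k).add_mem (Ideal.pow_le_pow_right (Nat.le_succ k) h1) (hl l)
    rw [sub_add_cancel] at h2
    exact h2
  · refine quad_open 𝔭 hp _ _ (homogeneousComponent_isHomogeneous 2 _)
      (homogeneousComponent_isHomogeneous 2 _) ?_ hquad
    intro m
    rw [← map_sub, coeff_homogeneousComponent]
    split_ifs
    · have h1 := deh_mem (0 : Fin (n + 2)) _ _ hD m
      rw [deh_sub] at h1
      exact Ideal.pow_le_self (Nat.succ_ne_zero k) h1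
    · exact 𝔭.zero_mem
  · intro s hs
    exact reg_open 𝔭 H H' (pow_mono_coeff 𝔭 (by omega) hD) s (hoff s hs)

end PS

theorem PS_ok : S_PS := by
  intro O _ _ n H 𝔭 hp h0 h
  rcases h with h | h
  · exact ⟨2, fun H' hD => Or.inl fun s => PS.reg_open 𝔭 H H' hD s (h s)⟩
  · obtain ⟨r, hr⟩ := PS.node_open H 𝔭 hp h
    exact ⟨r, fun H' hD => Or.inr (hr H' hD)⟩

end Pool.Agent.U41.OD
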